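import Pool.Agent.H110R3.Urn.Stmts

/-! TaskA2 of H110-URN: second moments of one step. -/

set_option autoImplicit false

namespace Pool.Agent.H253MB.Urn

open Pool.Agent.H110R3.Urn

noncomputable section

section abs
variable {ι : Type} [Fintype ι] [DecidableEq ι]

/-- one-edge weights -/
def q (p : ι → ℝ) (e : ι) (t : Bool) : ℝ := if t = true then p e else 1 - p e

/-- centred indicator -/
def xi (p : ι → ℝ) (e : ι) (t : Bool) : ℝ := (if t = true then 1 else 0) - p e

lemma prodsum (p : ι → ℝ) (H : ι → Bool → ℝ) :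
    ∑ s : ι → Bool, (∏ e, q p e (s e)) * ∏ e, H e (s e) = ∏ e, ∑ t, q p e t * H e t := by
  rw [Finset.prod_univ_sum, Fintype.piFinset_univ]
  refine Finset.sum_congr rfl (fun s _ => ?_)
  rw [Finset.prod_mul_distrib]

lemma q_sum (p : ι → ℝ) (e : ι) : ∑ t, q p e t * 1 = 1 := by
  simp [q]

lemma q_xi (p : ι → ℝ) (e : ι) : ∑ t, q p e t * xi p e t = 0 := by
  simp [q, xi]; ring

lemma q_xi2 (p : ι → ℝ) (e : ι) : ∑ t, q p e t * (xi p e t * xi p e t) = p e * (1 - p e) := by
  simp [q, xi]; ring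

lemma cross (p : ι → ℝ) {e e' : ι} (h : e ≠ e') :
    ∑ s : ι → Bool, (∏ f, q p f (s f)) * (xi p e (s e) * xi p e' (s e')) = 0 := by
  have e1 : ∀ s : ι → Bool, xi p e (s e) * xi p e' (s e') =
      ∏ f, ((if f = e then xi p f (s f) else 1) * (if f = e' then xi p f (s f) else 1)) := by
    intro s
    rw [Finset.prod_mul_distrib, Finset.prod_ite_eq' Finset.univ e (fun f => xi p f (s f)),
      Finset.prod_ite_eq' Finset.univ e' (fun f => xi p f (s f))]
    simp
  have e2 := prodsum p (fun f t => (if f = e then xi p f t else 1) * (if f = e' then xi p f t else 1))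
  calc ∑ s : ι → Bool, (∏ f, q p f (s f)) * (xi p e (s e) * xi p e' (s e'))
      = ∑ s : ι → Bool, (∏ f, q p f (s f)) *
        ∏ f, ((if f = e then xi p f (s f) else 1) * (if f = e' then xi p f (s f) else 1)) :=
        Finset.sum_congr rfl (fun s _ => by rw [e1])
    _ = _ := e2
    _ = 0 := by
      apply Finset.prod_eq_zero (Finset.mem_univ e)
      have := q_xi p e
      simpa [h] using this

lemma diag (p : ι → ℝ) (e : ι) :
    ∑ s : ι → Bool, (∏ f, q p f (s f)) * (xi p e (s e) * xi p e (s e)) = p e * (1 - p e) := by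
  have e1 : ∀ s : ι → Bool, xi p e (s e) * xi p e (s e) =
      ∏ f, (if f = e then xi p f (s f) * xi p f (s f) else 1) := by
    intro s
    rw [Finset.prod_ite_eq' Finset.univ e (fun f => xi p f (s f) * xi p f (s f))]
    simp
  have e2 := prodsum p (fun f t => if f = e then xi p f t * xi p f t else 1)
  calc ∑ s : ι → Bool, (∏ f, q p f (s f)) * (xi p e (s e) * xi p e (s e))
      = ∑ s : ι → Bool, (∏ f, q p f (s f)) *
        ∏ f, (if f = e then xi p f (s f) * xi p f (s f) else 1) :=
        Finset.sum_congr rfl (fun s _ => by rw [e1])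
    _ = _ := e2
    _ = p e * (1 - p e) := by
      rw [Finset.prod_eq_single e]
      · simp only [if_true]
        exact q_xi2 p e
      · intro f _ hf
        simp only [if_neg hf]
        exact q_sum p f
      · intro h; exact absurd (Finset.mem_univ e) h

/-- the second moment of a linear combination -/
lemma second (p : ι → ℝ) (B : ι → ι → ℝ) :
    ∑ s : ι → Bool, (∏ f, q p f (s f)) * (∑ e, ∑ e', xi p e (s e) * xi p e' (s e') * B e e') =
      ∑ e, p e * (1 - p e) * B e e := by
  calc ∑ s : ι → Bool, (∏ f, q p f (s f)) * (∑ e, ∑ e', xi p e (s e) * xi p e' (s e') * B e e')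
      = ∑ s : ι → Bool, ∑ e, ∑ e', (∏ f, q p f (s f)) * (xi p e (s e) * xi p e' (s e')) * B e e' := by
        refine Finset.sum_congr rfl (fun s _ => ?_)
        rw [Finset.mul_sum]
        refine Finset.sum_congr rfl (fun e _ => ?_)
        rw [Finset.mul_sum]
        refine Finset.sum_congr rfl (fun e' _ => ?_)
        ring
    _ = ∑ e, ∑ e', (∑ s : ι → Bool, (∏ f, q p f (s f)) * (xi p e (s e) * xi p e' (s e'))) * B e e' := by
        rw [Finset.sum_comm]
        refine Finset.sum_congr rfl (fun e _ => ?_)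
        rw [Finset.sum_comm]
        refine Finset.sum_congr rfl (fun e' _ => ?_)
        rw [Finset.sum_mul]
    _ = ∑ e, p e * (1 - p e) * B e e := by
        refine Finset.sum_congr rfl (fun e _ => ?_)
        rw [Finset.sum_eq_single e]
        · rw [diag]
        · intro e' _ he
          rw [cross p (Ne.symm he), zero_mul]
        · intro h; exact absurd (Finset.mem_univ e) h

end abs

section graph
variable {m : ℕ} (G : SimpleGraph (Fin m)) [DecidableRel G.Adj]

/-- incidence vector -/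
def cc (e : Ed G) (i : Fin m) : ℝ := (if e.1.1 = i then 1 else 0) - (if e.1.2 = i then 1 else 0)

lemma Y_eq (s : Ch G) (i : Fin m) : (Y G s i : ℝ) =
    ∑ e : Ed G, ((if s e = true then 1 else 0) * (if e.1.1 = i then 1 else 0) +
      (1 - (if s e = true then 1 else 0)) * (if e.1.2 = i then 1 else 0)) := by
  unfold Y
  rw [Finset.card_filter]
  push_cast
  refine Finset.sum_congr rfl (fun e _ => ?_)
  cases h : s e <;> simp

lemma sum_Ed (F : Fin m × Fin m → ℝ) :
    ∑ e : Ed G, F e.1 = ∑ a, ∑ b, if a < b ∧ G.Adj a b then F (a, b) else 0 := by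
  rw [← Fintype.sum_prod_type' (fun a b => if a < b ∧ G.Adj a b then F (a, b) else 0)]
  rw [← Finset.sum_filter]
  exact (Finset.sum_subtype _ (fun x => by simp) F).symm

lemma pp_swap {α x y : ℝ} (h : x ^ α + y ^ α ≠ 0) : 1 - pp α x y = pp α y x := by
  unfold pp
  have h' : y ^ α + x ^ α ≠ 0 := by rwa [add_comm]
  rw [add_comm (y ^ α) (x ^ α)]
  field_simp
  ring

lemma f_eq {α : ℝ} {x : Fin m → ℝ} (hx : ∀ i, 0 < x i) (i : Fin m) : fF G α x i =
    ∑ e : Ed G, (pp α (x e.1.1) (x e.1.2) * (if e.1.1 = i then 1 else 0) +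
      (1 - pp α (x e.1.1) (x e.1.2)) * (if e.1.2 = i then 1 else 0)) := by
  have hne : ∀ a b : Fin m, (x a) ^ α + (x b) ^ α ≠ 0 := fun a b =>
    (add_pos (Real.rpow_pos_of_pos (hx a) α) (Real.rpow_pos_of_pos (hx b) α)).ne'
  rw [sum_Ed G (fun z => pp α (x z.1) (x z.2) * (if z.1 = i then 1 else 0) +
      (1 - pp α (x z.1) (x z.2)) * (if z.2 = i then 1 else 0))]
  have e1 : ∀ a b : Fin m, (if a < b ∧ G.Adj a b then
      pp α (x a) (x b) * (if a = i then 1 else 0) + (1 - pp α (x a) (x b)) * (if b = i then 1 else 0) else 0) =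
      (if a = i then (if a < b ∧ G.Adj a b then pp α (x a) (x b) else 0) else 0) +
      (if b = i then (if a < b ∧ G.Adj a b then (1 - pp α (x a) (x b)) else 0) else 0) := by
    intro a b
    split_ifs <;> simp_all
  simp only [e1, Finset.sum_add_distrib]
  have e2 : ∑ a, ∑ b, (if a = i then (if a < b ∧ G.Adj a b then pp α (x a) (x b) else 0) else 0) =
      ∑ b, (if i < b ∧ G.Adj i b then pp α (x i) (x b) else 0) := by
    rw [Finset.sum_comm]
    refine Finset.sum_congr rfl (fun b _ => ?_)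
    rw [Finset.sum_ite_eq' Finset.univ i (fun a => if a < b ∧ G.Adj a b then pp α (x a) (x b) else 0)]
    simp
  have e3 : ∑ a, ∑ b, (if b = i then (if a < b ∧ G.Adj a b then (1 - pp α (x a) (x b)) else 0) else 0) =
      ∑ a, (if a < i ∧ G.Adj a i then (1 - pp α (x a) (x i)) else 0) := by
    refine Finset.sum_congr rfl (fun a _ => ?_)
    rw [Finset.sum_ite_eq' Finset.univ i (fun b => if a < b ∧ G.Adj a b then (1 - pp α (x a) (x b)) else 0)]
    simp
  rw [e2, e3, ← Finset.sum_add_distrib]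
  unfold fF
  refine Finset.sum_congr rfl (fun j _ => ?_)
  by_cases hadj : G.Adj i j
  · have hji : G.Adj j i := hadj.symm
    have hij : i ≠ j := G.ne_of_adj hadj
    rcases lt_or_gt_of_ne hij with h | h
    · simp [hadj, h, not_lt_of_gt h]
    · simp only [hadj, hji, h, not_lt_of_gt h, if_true, and_true, if_false, zero_add]
      rw [pp_swap (hne j i)]
  · have hji : ¬ G.Adj j i := fun h => hadj h.symm
    simp [hadj, hji]

lemma pp_X {α : ℝ} {b : Fin m → ℕ} (hb : ∀ i, 1 ≤ b i) (i j : Fin m) :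
    pp α (X b i) (X b j) = pp α (b i) (b j) := by
  have ht : 0 < tot b := by
    unfold tot
    apply Finset.sum_pos
    · intro k _
      have : 1 ≤ b k := hb k
      positivity
    · exact ⟨i, Finset.mem_univ i⟩
  unfold pp X
  rw [Real.div_rpow (by positivity) ht.le, Real.div_rpow (by positivity) ht.le, ← add_div,
    div_div_div_cancel_right₀ (Real.rpow_pos_of_pos ht α).ne']

lemma X_pos {b : Fin m → ℕ} (hb : ∀ i, 1 ≤ b i) (i : Fin m) : 0 < X b i := by
  have ht : 0 < tot b := by
    unfold tot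
    apply Finset.sum_pos
    · intro k _
      have : 1 ≤ b k := hb k
      positivity
    · exact ⟨i, Finset.mem_univ i⟩
  have : 1 ≤ b i := hb i
  unfold X
  positivity

lemma bil (Q : Fin m → Fin m → ℝ) (z : Ed G → ℝ) :
    ∑ i, ∑ j, Q i j * (∑ e, z e * cc G e i) * (∑ e, z e * cc G e j) =
      ∑ e, ∑ e', z e * z e' * (∑ i, ∑ j, Q i j * (cc G e i * cc G e' j)) := by
  have e1 : ∀ i j, Q i j * (∑ e, z e * cc G e i) * (∑ e, z e * cc G e j) =
      ∑ e, ∑ e', z e * z e' * (Q i j * (cc G e i * cc G e' j)) := by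
    intro i j
    rw [mul_assoc, Finset.sum_mul_sum, Finset.mul_sum]
    refine Finset.sum_congr rfl (fun e _ => ?_)
    rw [Finset.mul_sum]
    refine Finset.sum_congr rfl (fun e' _ => ?_)
    ring
  simp only [e1]
  simp only [Finset.mul_sum]
  calc ∑ i, ∑ j, ∑ e, ∑ e', z e * z e' * (Q i j * (cc G e i * cc G e' j))
      = ∑ i, ∑ e, ∑ j, ∑ e', z e * z e' * (Q i j * (cc G e i * cc G e' j)) :=
        Finset.sum_congr rfl (fun i _ => Finset.sum_comm)
    _ = ∑ e, ∑ i, ∑ j, ∑ e', z e * z e' * (Q i j * (cc G e i * cc G e' j)) := Finset.sum_comm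
    _ = ∑ e, ∑ i, ∑ e', ∑ j, z e * z e' * (Q i j * (cc G e i * cc G e' j)) :=
        Finset.sum_congr rfl (fun e _ => Finset.sum_congr rfl (fun i _ => Finset.sum_comm))
    _ = ∑ e, ∑ e', ∑ i, ∑ j, z e * z e' * (Q i j * (cc G e i * cc G e' j)) :=
        Finset.sum_congr rfl (fun e _ => Finset.sum_comm)

lemma bil_diag (Q : Fin m → Fin m → ℝ) (hQ : ∀ i j, Q i j = Q j i) (e : Ed G) :
    ∑ i, ∑ j, Q i j * (cc G e i * cc G e j) =
      Q e.1.1 e.1.1 - 2 * Q e.1.1 e.1.2 + Q e.1.2 e.1.2 := by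
  have e1 : ∀ i, ∑ j, Q i j * (cc G e i * cc G e j) = cc G e i * (Q i e.1.1 - Q i e.1.2) := by
    intro i
    unfold cc
    simp only [mul_sub, sub_mul, Finset.sum_sub_distrib, mul_ite, ite_mul, mul_one, mul_zero, one_mul,
      zero_mul, Finset.sum_ite_eq, Finset.mem_univ, if_true]
  simp only [e1]
  unfold cc
  simp only [sub_mul, Finset.sum_sub_distrib, ite_mul, one_mul, zero_mul,
    Finset.sum_ite_eq, Finset.mem_univ, if_true]
  rw [hQ e.1.2 e.1.1]
  ring

end graph

theorem taskA2 : TaskA2 := by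
  intro m G _ α b hb Q hQ
  classical
  set p : Ed G → ℝ := fun e => pp α (b e.1.1) (b e.1.2) with hp
  have hw : ∀ s : Ch G, w G α b s = ∏ f, q p f (s f) := fun s => rfl
  have hYf : ∀ (s : Ch G) (i : Fin m), (Y G s i : ℝ) - fF G α (X b) i =
      ∑ e : Ed G, xi p e (s e) * cc G e i := by
    intro s i
    rw [Y_eq, f_eq G (X_pos hb), ← Finset.sum_sub_distrib]
    refine Finset.sum_congr rfl (fun e _ => ?_)
    rw [pp_X hb]
    unfold xi cc
    simp only [hp]
    ring
  calc ∑ s, w G α b s * (∑ i, ∑ j, Q i j * ((Y G s i : ℝ) - fF G α (X b) i) *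
        ((Y G s j : ℝ) - fF G α (X b) j))
      = ∑ s : Ed G → Bool, (∏ f, q p f (s f)) * (∑ e, ∑ e', xi p e (s e) * xi p e' (s e') *
          (∑ i, ∑ j, Q i j * (cc G e i * cc G e' j))) := by
        refine Finset.sum_congr rfl (fun s _ => ?_)
        rw [hw]
        congr 1
        simp only [hYf]
        exact bil G Q (fun e => xi p e (s e))
    _ = ∑ e, p e * (1 - p e) * (∑ i, ∑ j, Q i j * (cc G e i * cc G e j)) :=
        second p (fun e e' => ∑ i, ∑ j, Q i j * (cc G e i * cc G e' j))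
    _ = _ := by
        refine Finset.sum_congr rfl (fun e _ => ?_)
        rw [bil_diag G Q hQ, pp_X hb]

end

end Pool.Agent.H253MB.Urn
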